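import Mathlib
import Pool.Agent.H274.Gaps

/-!
# Many primes between consecutive odd squares, and between consecutive squares, for all integers in windows

Let `1 ≤ u_0, u_1, …` be reals with `∑ u_m^{-t} < ∞` for all `t > τ` (`τ = 0` for geometric sequences), `θ < 1`,
`0 ≤ η < 1`, and let `σ ≥ 1` be such that the series of `(p_{k+1} - p_k)² p_k^{-s}` over all `k` converges for `s > σ`
(`MeanSquare σ`). By partial summation this says that the sum of `(p_{k+1} - p_k)²` over `p_k ≤ x` is `O(x^{σ + ε})`; it is known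
for `σ = 23/18` (Heath-Brown 1979), `σ = 5/4` (Peck 1996) and `σ = 1.23` (Stadlmann 2022). We show:

For all `a > 0` outside of a set of Hausdorff dimension at most `(2σ - 2 + 2η + τ) / (1 - θ)`, and for almost all `a > 0` if
`2η + θ + τ < 3 - 2σ`: for all large `m` there are at least `l^η` primes between `l²` and `(l + 1)²`, for ALL integers `l ≥ 3` with
`|l - a u_m| ≤ u_m^θ`. In particular there are at least `(2k - 1)^η` primes between the consecutive odd squares `(2k - 1)²` and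
`(2k + 1)²`, for all `2k - 1` in these windows.

With `σ = 1.23`, `u_m = b^m` and `θ = 0` this gives `l^{0.26}` primes in each interval; with small `η` the windows can have length
`b^{θ m}` for every `θ < 0.54`.

The proof: divide `(l², (l + 1)²)` into parts of length `⌊l^{1 - η}⌋`. If there are fewer than `l^η` primes then one of the parts
has none and is in a gap. Summing over `l ≤ N`, there are `O(N^{2σ - 2 + 2η + ε})` of these `l`. The `a` for which these are in
infinitely many windows are covered by `Pool.Agent.Y854.GM.windows`.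
-/

set_option autoImplicit false

namespace Pool.Agent.Results.MP_3a3367_nt.ManyPrimesInWindows

open Filter MeasureTheory

/-- the primes `p 0 = 2, p 1 = 3, …` -/
noncomputable def p (k : ℕ) : ℕ := Nat.nth Nat.Prime k

/-- the mean square of the gaps up to `x` is `O(x^{σ - 1 + ε})`: the series of `(p_{k+1} - p_k)² p_k^{-s}` converges for
`s > σ` -/
def MeanSquare (σ : ℝ) : Prop := ∀ s : ℝ, σ < s →
  Summable fun k : ℕ => ((p (k + 1) - p k : ℕ) : ℝ) ^ 2 * (p k : ℝ) ^ (-s)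

/-- the primes strictly between `x` and `y` -/
def primes (x y : ℕ) : Finset ℕ := (Finset.Ioo x y).filter Nat.Prime

/-- at least `l^η` primes between `l²` and `(l+1)²` for all `l ≥ 3` in the windows around `a u_m`, and at least `(2k-1)^η` primes
between `(2k-1)²` and `(2k+1)²` for all `2k-1 ≥ 3` in the windows, for all large `m` -/
def Good (u : ℕ → ℝ) (θ η a : ℝ) : Prop := ∃ m₀ : ℕ, ∀ m : ℕ, m₀ ≤ m →
  (∀ l : ℕ, 3 ≤ l → |(l : ℝ) - a * u m| ≤ u m ^ θ → (l : ℝ) ^ η ≤ (primes (l ^ 2) ((l + 1) ^ 2)).card) ∧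
  ∀ k : ℕ, 2 ≤ k → |((2 * k - 1 : ℕ) : ℝ) - a * u m| ≤ u m ^ θ →
    ((2 * k - 1 : ℕ) : ℝ) ^ η ≤ (primes ((2 * k - 1) ^ 2) ((2 * k + 1) ^ 2)).card

/-- `k` parts with primes -/
theorem parts {x w k : ℕ} (h : ∀ j < k, ∃ q : ℕ, q.Prime ∧ x + j * w < q ∧ q < x + j * w + w) :
    k ≤ (primes x (x + k * w)).card := by
  classical
  choose! q hq1 hq2 hq3 using h
  have hinj : Set.InjOn q (Finset.range k : Set ℕ) := by
    intro i hi j hj hij
    rw [Finset.coe_range, Set.mem_Iio] at hi hj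
    by_contra hne
    rcases lt_or_gt_of_ne hne with hlt | hlt
    · have h1 := hq3 i hi
      have h2 := hq2 j hj
      have h3 : (i + 1) * w ≤ j * w := Nat.mul_le_mul_right _ hlt
      nlinarith
    · have h1 := hq3 j hj
      have h2 := hq2 i hi
      have h3 : (j + 1) * w ≤ i * w := Nat.mul_le_mul_right _ hlt
      nlinarith
  have h1 : ((Finset.range k).image q).card = k := by
    rw [Finset.card_image_of_injOn hinj, Finset.card_range]
  have h2 : (Finset.range k).image q ⊆ primes x (x + k * w) := by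
    intro y hy
    obtain ⟨j, hj, rfl⟩ := Finset.mem_image.1 hy
    rw [Finset.mem_range] at hj
    unfold primes
    rw [Finset.mem_filter, Finset.mem_Ioo]
    have h3 := hq2 j hj
    have h4 := hq3 j hj
    have h5 : (j + 1) * w ≤ k * w := Nat.mul_le_mul_right _ hj
    refine ⟨⟨?_, ?_⟩, hq1 j hj⟩ <;> nlinarith
  have h3 := Finset.card_le_card h2
  omega

theorem primes_mono {x y y' : ℕ} (h : y ≤ y') : (primes x y).card ≤ (primes x y').card := by
  refine Finset.card_le_card fun q hq => ?_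
  unfold primes at *
  rw [Finset.mem_filter, Finset.mem_Ioo] at *
  exact ⟨⟨hq.1.1, hq.1.2.trans_le h⟩, hq.2⟩

/-- the length of the parts -/
noncomputable def w (η : ℝ) (l : ℕ) : ℕ := ⌊(l : ℝ) ^ (1 - η)⌋₊

theorem exists_part {η : ℝ} (hη0 : 0 ≤ η) (hη1 : η < 1) {l : ℕ} (hl : 3 ≤ l)
    (h : ((primes (l ^ 2) ((l + 1) ^ 2)).card : ℝ) < (l : ℝ) ^ η) :
    ∃ j : ℕ, j * w η l + w η l ≤ 2 * l + 1 ∧
      ∀ r : ℕ, r.Prime → ¬ (l ^ 2 + j * w η l < r ∧ r < l ^ 2 + j * w η l + w η l) := by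
  have hl1 : (1 : ℝ) ≤ l := by exact_mod_cast (by omega : 1 ≤ l)
  have hl0 : (0 : ℝ) < l := by linarith
  have hx1 : 1 ≤ (l : ℝ) ^ (1 - η) := Real.one_le_rpow hl1 (by linarith)
  have hw1 : 1 ≤ w η l := Nat.le_floor (by exact_mod_cast hx1)
  have hwx : (w η l : ℝ) ≤ (l : ℝ) ^ (1 - η) := Nat.floor_le (by positivity)
  set J : ℕ := (2 * l + 1) / w η l with hJ
  have hJw : J * w η l ≤ 2 * l + 1 := Nat.div_mul_le_self _ _
  have hJ2 : (l : ℝ) ^ η ≤ J := by
    have h1 : 2 * l + 1 < w η l * (J + 1) := Nat.lt_mul_div_succ _ (by omega)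
    have h2 : (2 * (l : ℝ) + 1) < w η l * (J + 1) := by exact_mod_cast h1
    have h3 : (2 * (l : ℝ) + 1) < (l : ℝ) ^ (1 - η) * (J + 1) :=
      h2.trans_le (mul_le_mul_of_nonneg_right hwx (by positivity))
    have h4 : (l : ℝ) ^ (1 - η) * (l : ℝ) ^ η = l := by
      rw [← Real.rpow_add hl0]
      simp
    have h5 : 1 ≤ (l : ℝ) ^ η := Real.one_le_rpow hl1 hη0
    by_contra hcon
    have h6 : (J : ℝ) + 1 ≤ 2 * (l : ℝ) ^ η := by linarith [not_le.1 hcon]
    have h7 : (l : ℝ) ^ (1 - η) * (J + 1) ≤ (l : ℝ) ^ (1 - η) * (2 * (l : ℝ) ^ η) :=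
      mul_le_mul_of_nonneg_left h6 (by positivity)
    nlinarith
  by_contra hcon
  push Not at hcon
  have h1 : J ≤ (primes (l ^ 2) (l ^ 2 + J * w η l)).card := by
    refine parts fun j hj => ?_
    have h2 : (j + 1) * w η l ≤ J * w η l := Nat.mul_le_mul_right _ hj
    obtain ⟨q, hq1, hq2, hq3⟩ := hcon j (by nlinarith)
    exact ⟨q, hq1, hq2, hq3⟩
  have h2 : J ≤ (primes (l ^ 2) ((l + 1) ^ 2)).card := h1.trans (primes_mono (by nlinarith))
  have h3 : (J : ℝ) ≤ ((primes (l ^ 2) ((l + 1) ^ 2)).card : ℝ) := by exact_mod_cast h2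
  linarith

/-- **Theorem.** Let `σ ≥ 1` with `MeanSquare σ`, `1 ≤ u_m`, `∑_m u_m^{-t} < ∞` for all `t > τ`, `θ < 1`, `0 ≤ η < 1`. There are at
least `l^η` primes between `l²` and `(l+1)²` for all `l` in the windows around `a u_m`, for all large `m`: for all `a > 0` outside
of a set of dimension at most `(2σ - 2 + 2η + τ) / (1 - θ)`, and for almost all `a > 0` if `2η + θ + τ < 3 - 2σ`. -/
theorem result (σ : ℝ) (hσ1 : 1 ≤ σ) (hMS : MeanSquare σ) (u : ℕ → ℝ) (τ θ η : ℝ) (hu : ∀ m, 1 ≤ u m) (hτ : 0 ≤ τ)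
    (hgrow : ∀ t : ℝ, τ < t → Summable fun m : ℕ => u m ^ (-t)) (hθ : θ < 1) (hη0 : 0 ≤ η) (hη1 : η < 1) :
    (∃ Z : Set ℝ, dimH Z ≤ ENNReal.ofReal ((2 * σ - 2 + 2 * η + τ) / (1 - θ)) ∧
      ∀ a : ℝ, 0 < a → a ∉ Z → Good u θ η a) ∧
    (2 * η + θ + τ < 3 - 2 * σ → ∀ᵐ a : ℝ, 0 < a → Good u θ η a) := by
  classical
  have h1 : ∃ Z : Set ℝ, dimH Z ≤ ENNReal.ofReal ((2 * σ - 2 + 2 * η + τ) / (1 - θ)) ∧
      ∀ a : ℝ, 0 < a → a ∉ Z → Good u θ η a := by
    set E : Set ℕ := {l | 3 ≤ l ∧ ((primes (l ^ 2) ((l + 1) ^ 2)).card : ℝ) < (l : ℝ) ^ η} with hE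
    have hex : ∀ l : ℕ, ∃ j : ℕ, l ∈ E → j * w η l + w η l ≤ 2 * l + 1 ∧
        ∀ r : ℕ, r.Prime → ¬ (l ^ 2 + j * w η l < r ∧ r < l ^ 2 + j * w η l + w η l) := by
      intro l
      by_cases hl : l ∈ E
      · obtain ⟨j, hj⟩ := exists_part hη0 hη1 hl.1 hl.2
        exact ⟨j, fun _ => hj⟩
      · exact ⟨0, fun h => absurd h hl⟩
    choose j hj using hex
    obtain ⟨Z, hZ1, hZ2⟩ := Pool.Agent.H274.Gaps.windows (q := 1) (B := Set.univ) (σ := σ) (γ := 1 - η) (c := 1 / 2)
      (by norm_num)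
      (fun s hs => by
        have := hMS s hs
        simpa [Pool.Agent.H274.Gaps.gap, Pool.Agent.H274.Gaps.p, p] using this)
      (f := fun l => l ^ 2 + j l * w η l) (w := w η) (E := E) (by linarith) (by push_cast; linarith)
      (fun l hl => by
        have h3 := hl.1
        nlinarith [Nat.zero_le (j l * w η l)])
      (fun l hl => by
        have h3 := (hj l hl).1
        have h4 := hl.1
        nlinarith)
      (fun l hl => by
        have hl1 : (1 : ℝ) ≤ l := by exact_mod_cast (by have := hl.1; omega : 1 ≤ l)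
        have hx1 : 1 ≤ (l : ℝ) ^ (1 - η) := Real.one_le_rpow hl1 (by linarith)
        have h3 := Nat.lt_floor_add_one ((l : ℝ) ^ (1 - η))
        have h4 : (1 : ℝ) ≤ (w η l : ℝ) := by
          have : 1 ≤ w η l := Nat.le_floor (by exact_mod_cast hx1)
          exact_mod_cast this
        have h5 : (l : ℝ) ^ (1 - η) < (w η l : ℝ) + 1 := h3
        linarith)
      (fun l hl => (hj l hl).2)
      (fun l hl l' hl' h => by
        have h3 := (hj l hl).1
        have h4 : (l + 1) ^ 2 ≤ l' ^ 2 := Nat.pow_le_pow_left h 2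
        nlinarith [Nat.zero_le (j l' * w η l')]) (fun l _ => Set.mem_univ _) hu hτ hgrow hθ
    refine ⟨Z, hZ1.trans (le_of_eq ?_), fun a ha haZ => ?_⟩
    · congr 2
      push_cast
      ring
    · obtain ⟨m₀, hm₀⟩ := hZ2 a ha haZ
      have key : ∀ m : ℕ, m₀ ≤ m → ∀ l : ℕ, 3 ≤ l → |(l : ℝ) - a * u m| ≤ u m ^ θ →
          (l : ℝ) ^ η ≤ (primes (l ^ 2) ((l + 1) ^ 2)).card := by
        intro m hm l hl hlm
        by_contra hcon
        exact absurd hlm (not_le.2 (hm₀ m hm l ⟨hl, not_le.1 hcon⟩))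
      refine ⟨m₀, fun m hm => ⟨key m hm, fun k hk hkm => ?_⟩⟩
      have h3 := key m hm (2 * k - 1) (by omega) hkm
      have h4 : (primes ((2 * k - 1) ^ 2) ((2 * k - 1 + 1) ^ 2)).card ≤ (primes ((2 * k - 1) ^ 2) ((2 * k + 1) ^ 2)).card :=
        primes_mono (Nat.pow_le_pow_left (by omega) 2)
      exact h3.trans (by exact_mod_cast h4)
  refine ⟨h1, fun hθτ => ?_⟩
  obtain ⟨Z, hZ1, hZ2⟩ := h1
  have hnull : volume Z = 0 := by
    rw [← hausdorffMeasure_real]
    refine hausdorffMeasure_of_dimH_lt (d := 1) (hZ1.trans_lt ?_)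
    have g1 : (2 * σ - 2 + 2 * η + τ) / (1 - θ) < 1 := by
      rw [div_lt_one (by linarith)]
      linarith
    simpa using (ENNReal.ofReal_lt_one).2 g1
  filter_upwards [compl_mem_ae_iff.2 hnull] with a ha ha0
  exact hZ2 a ha0 ha

end Pool.Agent.Results.MP_3a3367_nt.ManyPrimesInWindows
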