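import Pool.Agent.V11237.LP.Short

set_option autoImplicit false

/-!
# Almost primes between consecutive odd squares: the laws of the gaps

Call `m` good if it has no prime factor up to `k ^ (1 / r)`. In EVERY interval `(u, u + Y]` between `(2 k - 1) ^ 2` and `(2 k + 1) ^ 2` with `Y ≥ k ^ θ` the distances of the
good integers to the `l`-th good integer before them have the Gamma distributions of a Poisson process of
density `U`, the product of `1 - 1 / p` over the primes `p ≤ k ^ (1 / r)`, up to `ε`, for every `l ≤ l₀` and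
all distances (and for every `l` if the distance is at most `x₀ / U`). With `T = 0` this is the asymptotic
number of the good integers.
-/

namespace Pool.Agent.Results.MP_3a3367_nt.AlmostPrimeGapLaws

open Finset Filter
open Pool.Agent.V11237.LP.Short

/-- **The laws of the gaps of the almost primes between consecutive odd squares**, in all subintervals of length at least `k ^ θ`. -/
theorem result (θ : ℝ) (hθ : 0 < θ) (l₀ : ℕ) (x₀ ε : ℝ) (hε : 0 < ε) :
    ∃ r₀ : ℕ, ∀ r : ℕ, r₀ ≤ r → ∃ k₀ : ℕ, ∀ k : ℕ, k₀ ≤ k → 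
      (∀ m : ℕ, m ≠ 0 → m ≤ (2 * k + 1) ^ 2 → Good k r m → m.primeFactorsList.length ≤ 3 * r) ∧
      ∀ u Y : ℕ, (2 * k - 1) ^ 2 ≤ u ∧ u + Y ≤ (2 * k + 1) ^ 2 → (k : ℝ) ^ θ ≤ Y → ∀ l T : ℕ, (l ≤ l₀ ∨ T * U k r ≤ x₀) →
        |(G k r l T u Y : ℝ) - Y * U k r *
          ∑ j ∈ range l, Real.exp (-(T * U k r)) * (T * U k r) ^ j / j.factorial| ≤
        ε * (Y * U k r) := by
  obtain ⟨r0, _, h0⟩ := gaps θ hθ l₀ x₀ ε hε
  refine ⟨max r0 1, ?_⟩
  intro r hr
  obtain ⟨N0, hN0⟩ := h0 r ((le_max_left _ _).trans hr)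
  refine ⟨max N0 9, ?_⟩
  intro k hk
  have hb : 9 ≤ k := (le_max_right _ _).trans hk
  refine ⟨?_, fun u Y _ hY l T hT => hN0 k ((le_max_left _ _).trans hk) u Y hY l T hT⟩
  intro m hm0 hm hg
  refine few ((le_max_right _ _).trans hr) (by omega) hm0 (hm.trans ?_) hg
  calc (2 * k + 1) ^ 2 ≤ (3 * k) ^ 2 := Nat.pow_le_pow_left (by omega) 2
    _ = 9 * k ^ 2 := by ring
    _ ≤ k * k ^ 2 := Nat.mul_le_mul_right _ hb
    _ = k ^ 3 := by ring

end Pool.Agent.Results.MP_3a3367_nt.AlmostPrimeGapLaws
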